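import Pool.Agent.Y558.MB.Tw

set_option autoImplicit false

/-!
# The decomposition into oriented components
-/

namespace Pool.Agent.Y558.MB

open Set MeasureTheory
open Pool.Agent.H533R2.VO (RS Dich VC RIso)
open Pool.Agent.H566P (ar R2 v2 lt ac co mk)
open Pool.Agent.Y560.TG (lt_mk ac_mk co_mk R2_ext riso_iff meas_into cont_into)
open Pool.Agent.H533R2.VS (US UIso UDich VCu Coan Inv IsSum DecG act p2)
open Pool.Agent.Y560.TF (TR TA)
open Pool.Agent.TH425.FF (PCanon PExp)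

section
variable {Γ : Type} [Group Γ] {g : ℕ → Γ} {χ : Γ →* ℤˣ} {R : R2} {t : Γ → ℕ → ℕ}

theorem chi_conj (γ δ : Γ) : χ (γ⁻¹ * δ * γ) = χ δ := by
  rw [map_mul, map_mul, map_inv, mul_comm (χ γ)⁻¹, inv_mul_cancel_right]

theorem chi_div {γ δ : Γ} (h1 : χ γ = 1) (h2 : χ δ ≠ 1) : χ (δ * γ⁻¹) ≠ 1 := by
  rw [map_mul, map_inv, h1, inv_one, mul_one]
  exact h2

theorem chi_neg {γ : Γ} (h : χ γ ≠ 1) : χ γ = -1 := by
  rcases Int.units_eq_one_or (χ γ) with h1 | h1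
  · exact absurd h1 h
  · exact h1

theorem chi_mul_neg {γ δ : Γ} (h1 : χ γ ≠ 1) (h2 : χ δ ≠ 1) : χ (γ * δ) = 1 := by
  rw [map_mul, chi_neg h1, chi_neg h2]
  simp

theorem chi_mul_pos {γ δ : Γ} (h1 : χ γ = 1) (h2 : χ δ = 1) : χ (γ * δ) = 1 := by
  rw [map_mul, h1, h2, mul_one]

theorem chi_mul_pn {γ δ : Γ} (h1 : χ γ = 1) (h2 : χ δ ≠ 1) : χ (γ * δ) ≠ 1 := by
  rw [map_mul, h1, one_mul]
  exact h2

theorem chi_mul_np {γ δ : Γ} (h1 : χ γ ≠ 1) (h2 : χ δ = 1) : χ (γ * δ) ≠ 1 := by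
  rw [map_mul, h2, mul_one]
  exact h1

namespace WA

theorem inv_t (h : WA g χ R t) (γ : Γ) (x : ℕ) : t γ⁻¹ (t γ x) = x := by
  rw [← h.mul, inv_mul_cancel, h.one]

theorem t_inv (h : WA g χ R t) (γ : Γ) (x : ℕ) : t γ (t γ⁻¹ x) = x := by
  rw [← h.mul, mul_inv_cancel, h.one]

theorem t_inj (h : WA g χ R t) (γ : Γ) {x y : ℕ} (e : t γ x = t γ y) : x = y := by
  rw [← h.inv_t γ x, e, h.inv_t]

theorem pos_iff (h : WA g χ R t) {γ : Γ} (hγ : χ γ = 1) (x y : ℕ) :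
    lt R (t γ x) (t γ y) ↔ lt R x y := by
  constructor
  · intro h1
    have h2 := h.mono γ⁻¹ _ _ (by rw [map_inv, hγ, inv_one]) h1
    rwa [h.inv_t, h.inv_t] at h2
  · exact h.mono γ x y hγ

theorem neg_iff (h : WA g χ R t) {γ : Γ} (hγ : χ γ ≠ 1) (x y : ℕ) :
    lt R (t γ x) (t γ y) ↔ lt R y x := by
  constructor
  · intro h1
    have h2 := h.anti γ⁻¹ _ _ (by rw [map_inv]; simpa using hγ) h1
    rwa [h.inv_t, h.inv_t] at h2
  · exact h.anti γ y x hγ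

theorem asymm (h : WA g χ R t) {x y : ℕ} (h1 : lt R x y) (h2 : lt R y x) : False :=
  h.irr _ (h.tr _ _ _ h1 h2)

theorem sim_iff (h : WA g χ R t) (hg : Function.Surjective g) (m n : ℕ) :
    sim g χ R m n ↔ ∀ γ, χ γ ≠ 1 → ((lt R m (t γ m) ↔ lt R n (t γ n)) ∧
      (lt R (t γ m) m ↔ lt R (t γ n) n)) := by
  constructor
  · intro hs γ hγ
    obtain ⟨j, rfl⟩ := hg γ
    exact hs j _ _ hγ ((h.act _ _ _).2 rfl) ((h.act _ _ _).2 rfl)
  · intro hs j m' n' hj h1 h2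
    rw [h.act] at h1 h2
    subst h1 h2
    exact hs _ hj

theorem sim_t (h : WA g χ R t) (hg : Function.Surjective g) {m n : ℕ} (hs : sim g χ R m n)
    (γ : Γ) : sim g χ R (t γ m) (t γ n) := by
  rw [h.sim_iff hg] at hs ⊢
  intro δ hδ
  have e : ∀ x, t δ (t γ x) = t γ (t (γ⁻¹ * δ * γ) x) := by
    intro x
    rw [← h.mul, ← h.mul]
    congr 1
    group
  have hs' := hs (γ⁻¹ * δ * γ) (by rw [chi_conj]; exact hδ)
  rw [e, e]
  by_cases hγ : χ γ = 1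
  · simp only [h.pos_iff hγ]
    exact hs'
  · simp only [h.neg_iff hγ]
    exact ⟨hs'.2, hs'.1⟩

theorem U_down (h : WA g χ R t) {γ : Γ} (hγ : χ γ ≠ 1) {m n : ℕ} (hmn : lt R m n)
    (h1 : lt R n (t γ n)) : lt R m (t γ m) :=
  h.tr _ _ _ hmn (h.tr _ _ _ h1 (h.anti γ m n hγ hmn))

theorem U_up (h : WA g χ R t) {γ : Γ} (hγ : χ γ ≠ 1) {m n : ℕ} (hmn : lt R m n)
    (h1 : lt R (t γ m) m) : lt R (t γ n) n :=
  h.tr _ _ _ (h.tr _ _ _ (h.anti γ m n hγ hmn) h1) hmn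

/-- elements in different positions are compared by the cuts -/
theorem lt_of_cut (h : WA g χ R t) {γ : Γ} (hγ : χ γ ≠ 1) {m n : ℕ}
    (hc : (lt R m (t γ m) ∧ ¬ lt R n (t γ n)) ∨ (¬ lt R (t γ m) m ∧ lt R (t γ n) n)) :
    lt R m n := by
  rcases h.tot m n with e | h1 | h1
  · subst e
    rcases hc with ⟨h2, h3⟩ | ⟨h2, h3⟩
    · exact absurd h2 h3
    · exact absurd h3 h2
  · exact h1
  · rcases hc with ⟨h2, h3⟩ | ⟨h2, h3⟩
    · exact absurd (h.U_down hγ h1 h2) h3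
    · exact absurd (h.U_up hγ h1 h3) h2

theorem cut_of_lt (h : WA g χ R t) (hg : Function.Surjective g) {m n : ℕ} (hmn : lt R m n)
    (hs : ¬ sim g χ R m n) : ∃ γ, χ γ ≠ 1 ∧
      ((lt R m (t γ m) ∧ ¬ lt R n (t γ n)) ∨ (¬ lt R (t γ m) m ∧ lt R (t γ n) n)) := by
  rw [h.sim_iff hg] at hs
  push Not at hs
  obtain ⟨γ, hγ, hs⟩ := hs
  refine ⟨γ, hγ, ?_⟩
  by_cases h1 : lt R m (t γ m) ↔ lt R n (t γ n)
  · have h2 := hs h1
    right
    by_cases h3 : lt R (t γ m) m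
    · have h4 := h.U_up hγ hmn h3
      tauto
    · tauto
  · left
    by_cases h3 : lt R n (t γ n)
    · have h4 := h.U_down hγ hmn h3
      tauto
    · tauto

theorem fix_of_sim (h : WA g χ R t) (hg : Function.Surjective g) {γ : Γ} (hγ : χ γ ≠ 1) {m : ℕ}
    (hs : sim g χ R m (t γ m)) : t γ m = m := by
  rw [h.sim_iff hg] at hs
  have hs' := hs γ hγ
  rw [h.neg_iff hγ, h.neg_iff hγ] at hs'
  rcases h.tot (t γ m) m with h1 | h1 | h1
  · exact h1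
  · exact (h.asymm h1 (hs'.2.1 h1)).elim
  · exact (h.asymm h1 (hs'.1.1 h1)).elim

theorem eq_of_sim (h : WA g χ R t) (hg : Function.Surjective g) {γ : Γ} (hγ : χ γ ≠ 1) {m n : ℕ}
    (hm : t γ m = m) (hs : sim g χ R m n) : n = m := by
  rw [h.sim_iff hg] at hs
  have hs' := hs γ hγ
  rw [hm] at hs'
  have hn : t γ n = n := by
    rcases h.tot (t γ n) n with h1 | h1 | h1
    · exact h1
    · exact (h.irr _ (hs'.2.2 h1)).elim
    · exact (h.irr _ (hs'.1.2 h1)).elim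
  rcases h.tot n m with h1 | h1 | h1
  · exact h1
  · have h2 := h.anti γ _ _ hγ h1
    rw [hm, hn] at h2
    exact (h.asymm h1 h2).elim
  · have h2 := h.anti γ _ _ hγ h1
    rw [hm, hn] at h2
    exact (h.asymm h1 h2).elim

end WA

theorem sim_refl (m : ℕ) (h : WA g χ R t) (hg : Function.Surjective g) : sim g χ R m m := by
  rw [h.sim_iff hg]
  exact fun _ _ => ⟨Iff.rfl, Iff.rfl⟩

theorem sim_symm (h : WA g χ R t) (hg : Function.Surjective g) {m n : ℕ}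
    (hs : sim g χ R m n) : sim g χ R n m := by
  rw [h.sim_iff hg] at hs ⊢
  exact fun γ hγ => ⟨(hs γ hγ).1.symm, (hs γ hγ).2.symm⟩

theorem sim_trans (h : WA g χ R t) (hg : Function.Surjective g) {m n k : ℕ}
    (h1 : sim g χ R m n) (h2 : sim g χ R n k) : sim g χ R m k := by
  rw [h.sim_iff hg] at h1 h2 ⊢
  exact fun γ hγ => ⟨(h1 γ hγ).1.trans (h2 γ hγ).1, (h1 γ hγ).2.trans (h2 γ hγ).2⟩

theorem cls_iff (h : WA g χ R t) (hg : Function.Surjective g) (m n : ℕ) :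
    cls g χ R m n ↔ ∃ γ, sim g χ R (t γ m) n := by
  constructor
  · rintro ⟨j, m', h1, h2⟩
    rw [h.act] at h1
    exact ⟨g j, h1 ▸ h2⟩
  · rintro ⟨γ, h1⟩
    obtain ⟨j, rfl⟩ := hg γ
    exact ⟨j, _, (h.act _ _ _).2 rfl, h1⟩

/-- an element whose class is reached with both signs is alone in its class -/
theorem single (h : WA g χ R t) (hg : Function.Surjective g) {γ δ : Γ} (hγ : χ γ = 1)
    (hδ : χ δ ≠ 1) {x m n : ℕ} (h1 : sim g χ R (t γ x) m) (h2 : sim g χ R (t δ x) m)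
    (h3 : sim g χ R m n) : m = n := by
  have e : t δ x = t (δ * γ⁻¹) (t γ x) := by
    rw [← h.mul]
    congr 1
    group
  have h4 : sim g χ R (t γ x) (t (δ * γ⁻¹) (t γ x)) := by
    rw [← e]
    exact sim_trans h hg h1 (sim_symm h hg h2)
  have h5 := h.fix_of_sim hg (chi_div hγ hδ) h4
  have h6 := h.eq_of_sim hg (chi_div hγ hδ) h5 h1
  have h7 := h.eq_of_sim hg (chi_div hγ hδ) h5 (sim_trans h hg h1 h3)
  rw [h6, h7]

/-! ### The first coding -/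

theorem co_c1_1 (h : WA g χ R t) (j m : ℕ) :
    co (c1 g χ R) (3 * j + 1) m ↔ lt R m (t (g j) m) := by
  simp only [c1, co_mk]
  rw [if_neg (by omega), if_pos (by omega), show (3 * j + 1) / 3 = j by omega]
  constructor
  · rintro ⟨x', h1, h2⟩
    rw [h.act] at h1
    exact h1 ▸ h2
  · intro h1
    exact ⟨_, (h.act _ _ _).2 rfl, h1⟩

theorem co_c1_2 (h : WA g χ R t) (j m : ℕ) :
    co (c1 g χ R) (3 * j + 2) m ↔ lt R (t (g j) m) m := by
  simp only [c1, co_mk]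
  rw [if_neg (by omega), if_neg (by omega), show (3 * j + 2) / 3 = j by omega]
  constructor
  · rintro ⟨x', h1, h2⟩
    rw [h.act] at h1
    exact h1 ▸ h2
  · intro h1
    exact ⟨_, (h.act _ _ _).2 rfl, h1⟩

theorem co_c1_0 (j m : ℕ) : co (c1 g χ R) (3 * j) m ↔ co R j m := by
  simp only [c1, co_mk]
  rw [if_pos (by omega), show (3 * j) / 3 = j by omega]

theorem lt_c1 (m n : ℕ) : lt (c1 g χ R) m n ↔ lt R m n ∧ sim g χ R m n := by
  simp only [c1, lt_mk]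

theorem ac_c1_0 (m n : ℕ) : ac (c1 g χ R) 0 m n ↔ cls g χ R m n := by
  simp only [c1, ac_mk, if_true]

theorem ac_c1_succ (j m n : ℕ) : ac (c1 g χ R) (j + 1) m n ↔ ac R j m n := by
  simp only [c1, ac_mk]
  rw [if_neg (Nat.succ_ne_zero j)]
  rfl

theorem d1_c1 (h : WA g χ R t) (hg : Function.Surjective g) : d1 g χ (c1 g χ R) = R := by
  refine R2_ext ?_ ?_ ?_
  · intro m n
    simp only [d1, lt_mk, lt_c1, co_c1_1 h, co_c1_2 h]
    constructor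
    · rintro (⟨h1, -⟩ | ⟨j, hj, h1⟩)
      · exact h1
      · exact h.lt_of_cut hj h1
    · intro h1
      by_cases hs : sim g χ R m n
      · exact Or.inl ⟨h1, hs⟩
      · obtain ⟨γ, hγ, hc⟩ := h.cut_of_lt hg h1 hs
        obtain ⟨j, rfl⟩ := hg γ
        exact Or.inr ⟨j, hγ, hc⟩
  · intro j m n
    simp only [d1, ac_mk, ac_c1_succ]
  · intro j m
    simp only [d1, co_mk, co_c1_0]

/-! ### The blocks -/

section blk
variable {e : ℕ → ℕ}

/-- a block -/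
noncomputable def blk (g : ℕ → Γ) (χ : Γ →* ℤˣ) (R : R2) (e : ℕ → ℕ) : R2 :=
  fun i v => if i ≠ 1 ∧ (fun _ : ℕ => false) i = false then c1 g χ R i (e ∘ v) else false

theorem comp_v2' (i m n : ℕ) : (e ∘ v2 i m n : Fin (ar i) → ℕ) = v2 i (e m) (e n) := by
  funext j
  simp only [Function.comp, v2]
  split_ifs <;> rfl

theorem lt_blk (m n : ℕ) : lt (blk g χ R e) m n ↔ lt R (e m) (e n) ∧ sim g χ R (e m) (e n) := by
  rw [← lt_c1]
  show (if (0 : ℕ) ≠ 1 ∧ false = false then c1 g χ R 0 (e ∘ v2 0 m n) else false) = true ↔ _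
  rw [if_pos ⟨by decide, rfl⟩, comp_v2']
  rfl

theorem ac_blk_0 (m n : ℕ) : ¬ ac (blk g χ R e) 0 m n := by
  show ¬ (if (2 * 0 + 1 : ℕ) ≠ 1 ∧ false = false then c1 g χ R (2 * 0 + 1) _ else false) = true
  rw [if_neg (by simp)]
  simp

theorem ac_blk_succ (j m n : ℕ) : ac (blk g χ R e) (j + 1) m n ↔ ac R j (e m) (e n) := by
  refine Iff.trans ?_ (ac_c1_succ (g := g) (χ := χ) j (e m) (e n))
  show (if (2 * (j + 1) + 1 : ℕ) ≠ 1 ∧ false = false then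
    c1 g χ R (2 * (j + 1) + 1) (e ∘ v2 (2 * (j + 1) + 1) m n) else false) = true ↔ _
  rw [if_pos ⟨by omega, rfl⟩, comp_v2']
  rfl

theorem co_blk (j m : ℕ) : co (blk g χ R e) j m ↔ co (c1 g χ R) j (e m) := by
  show (if (2 * j + 2 : ℕ) ≠ 1 ∧ false = false then
    c1 g χ R (2 * j + 2) (e ∘ v2 (2 * j + 2) m m) else false) = true ↔ _
  rw [if_pos ⟨by omega, rfl⟩, comp_v2']
  rfl

theorem sim'_blk (h : WA g χ R t) (hg : Function.Surjective g) (k m : ℕ) :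
    sim' g χ (blk g χ R e) k m ↔ sim g χ R (e k) (e m) := by
  rw [h.sim_iff hg]
  unfold sim'
  simp only [co_blk, co_c1_1 h, co_c1_2 h]
  constructor
  · intro h1 γ hγ
    obtain ⟨j, rfl⟩ := hg γ
    exact h1 j hγ
  · intro h1 j hj
    exact h1 _ hj

theorem sp_blk (h : WA g χ R t) (hg : Function.Surjective g)
    (he : ∀ γ x, ∃ y, e y = t γ (e x)) (m : ℕ) :
    sp g χ 1 (blk g χ R e) [0] m ↔ ∃ γ, χ γ = 1 ∧ sim g χ R (t γ (e 0)) (e m) := by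
  constructor
  · rintro ⟨x0, hx0, j, k, hj, h1, h2⟩
    rw [List.mem_singleton] at hx0
    subst hx0
    rw [ac_blk_succ, h.act] at h1
    rw [sim'_blk h hg] at h2
    exact ⟨g j, hj, h1 ▸ h2⟩
  · rintro ⟨γ, hγ, h1⟩
    obtain ⟨j, rfl⟩ := hg γ
    obtain ⟨y, hy⟩ := he (g j) 0
    refine ⟨0, List.mem_singleton.2 rfl, j, y, hγ, ?_, ?_⟩
    · rw [ac_blk_succ, h.act]
      exact hy.symm
    · rw [sim'_blk h hg, hy]
      exact h1

theorem sn_blk (h : WA g χ R t) (hg : Function.Surjective g)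
    (he : ∀ γ x, ∃ y, e y = t γ (e x)) (m : ℕ) :
    sn g χ 1 (blk g χ R e) [0] m ↔ ∃ γ, χ γ ≠ 1 ∧ sim g χ R (t γ (e 0)) (e m) := by
  constructor
  · rintro ⟨x0, hx0, j, k, hj, h1, h2⟩
    rw [List.mem_singleton] at hx0
    subst hx0
    rw [ac_blk_succ, h.act] at h1
    rw [sim'_blk h hg] at h2
    exact ⟨g j, hj, h1 ▸ h2⟩
  · rintro ⟨γ, hγ, h1⟩
    obtain ⟨j, rfl⟩ := hg γ
    obtain ⟨y, hy⟩ := he (g j) 0
    refine ⟨0, List.mem_singleton.2 rfl, j, y, hγ, ?_, ?_⟩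
    · rw [ac_blk_succ, h.act]
      exact hy.symm
    · rw [sim'_blk h hg, hy]
      exact h1

theorem sp_c2 (z : R2) (p : List ℕ) (m : ℕ) : sp g χ 0 (c2 g χ p z) p m ↔ sp g χ 1 z p m := by
  simp only [sp, sim', c2, ac_mk, co_mk, Nat.add_zero]

theorem sn_c2 (z : R2) (p : List ℕ) (m : ℕ) : sn g χ 0 (c2 g χ p z) p m ↔ sn g χ 1 z p m := by
  simp only [sn, sim', c2, ac_mk, co_mk, Nat.add_zero]

theorem block (h : WA g χ R t) (hg : Function.Surjective g) (he0 : Function.Injective e)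
    (he : ∀ γ x, ∃ y, e y = t γ (e x)) (hcl : ∀ m, ∃ γ, sim g χ R (t γ (e 0)) (e m)) :
    PExp (c2 g χ) (d2 g χ) (TR g) (blk g χ R e) := by
  -- the two signs
  have hsp : ∀ m, sp g χ 1 (blk g χ R e) [0] m ↔ ∃ γ, χ γ = 1 ∧ sim g χ R (t γ (e 0)) (e m) :=
    sp_blk h hg he
  have hsn : ∀ m, sn g χ 1 (blk g χ R e) [0] m ↔ ∃ γ, χ γ ≠ 1 ∧ sim g χ R (t γ (e 0)) (e m) :=
    sn_blk h hg he
  have hor : ∀ m, sp g χ 1 (blk g χ R e) [0] m ∨ sn g χ 1 (blk g χ R e) [0] m := by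
    intro m
    obtain ⟨γ, hγ⟩ := hcl m
    by_cases h1 : χ γ = 1
    · exact Or.inl ((hsp m).2 ⟨γ, h1, hγ⟩)
    · exact Or.inr ((hsn m).2 ⟨γ, h1, hγ⟩)
  have hand : ∀ m n, sp g χ 1 (blk g χ R e) [0] m → sn g χ 1 (blk g χ R e) [0] m →
      sim g χ R (e m) (e n) → m = n := by
    intro m n h1 h2 h3
    obtain ⟨γ, hγ, h4⟩ := (hsp m).1 h1
    obtain ⟨δ, hδ, h5⟩ := (hsn m).1 h2
    exact he0 (single h hg hγ hδ h4 h5 h3)
  have hspc : ∀ m n, sim g χ R (e m) (e n) → sp g χ 1 (blk g χ R e) [0] m →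
      sp g χ 1 (blk g χ R e) [0] n := by
    intro m n h1 h2
    obtain ⟨γ, hγ, h4⟩ := (hsp m).1 h2
    exact (hsp n).2 ⟨γ, hγ, sim_trans h hg h4 h1⟩
  have hsnc : ∀ m n, sim g χ R (e m) (e n) → sn g χ 1 (blk g χ R e) [0] m →
      sn g χ 1 (blk g χ R e) [0] n := by
    intro m n h1 h2
    obtain ⟨γ, hγ, h4⟩ := (hsn m).1 h2
    exact (hsn n).2 ⟨γ, hγ, sim_trans h hg h4 h1⟩
  have hlt : ∀ m n, lt (blk g χ R e) m n ↔ lt R (e m) (e n) ∧ sim g χ R (e m) (e n) := lt_blk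
  have hlc : ∀ m n, lt (c2 g χ [0] (blk g χ R e)) m n ↔
      (sp g χ 1 (blk g χ R e) [0] m ∧ lt R (e m) (e n) ∧ sim g χ R (e m) (e n)) ∨
      (sn g χ 1 (blk g χ R e) [0] m ∧ lt R (e n) (e m) ∧ sim g χ R (e m) (e n)) := by
    intro m n
    simp only [c2, lt_mk, ro, hlt]
    constructor
    · rintro (⟨h1, h2, h3⟩ | ⟨h1, h2, h3⟩)
      · exact Or.inl ⟨h1, h2, h3⟩
      · exact Or.inr ⟨h1, h2, sim_symm h hg h3⟩
    · rintro (⟨h1, h2, h3⟩ | ⟨h1, h2, h3⟩)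
      · exact Or.inl ⟨h1, h2, h3⟩
      · exact Or.inr ⟨h1, h2, sim_symm h hg h3⟩
  -- in a nontrivial class only one sign occurs
  have hne : ∀ m n, sim g χ R (e m) (e n) → m ≠ n → sp g χ 1 (blk g χ R e) [0] m →
      sn g χ 1 (blk g χ R e) [0] m → False := fun m n h1 h2 h3 h4 => h2 (hand m n h3 h4 h1)
  have hltne : ∀ m n, lt R (e m) (e n) → m ≠ n := by
    rintro m n h1 rfl
    exact h.irr _ h1
  refine ⟨[0], ?_, ?_⟩
  · choose T hT using he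
    refine ⟨T, ?_, ?_, ?_, ?_, ?_, ?_, ?_⟩
    · intro x hx
      rcases (hlc x x).1 hx with ⟨-, h1, -⟩ | ⟨-, h1, -⟩
      · exact h.irr _ h1
      · exact h.irr _ h1
    · intro x y z h1 h2
      rw [hlc] at h1 h2 ⊢
      rcases h1 with ⟨a1, a2, a3⟩ | ⟨a1, a2, a3⟩
      · rcases h2 with ⟨b1, b2, b3⟩ | ⟨b1, b2, b3⟩
        · exact Or.inl ⟨a1, h.tr _ _ _ a2 b2, sim_trans h hg a3 b3⟩
        · exact (hne x y a3 (hltne _ _ a2) a1
            (hsnc y x (sim_symm h hg a3) b1)).elim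
      · rcases h2 with ⟨b1, b2, b3⟩ | ⟨b1, b2, b3⟩
        · exact (hne x y a3 (hltne _ _ a2).symm
            (hspc y x (sim_symm h hg a3) b1) a1).elim
        · exact Or.inr ⟨a1, h.tr _ _ _ b2 a2, sim_trans h hg a3 b3⟩
    · intro a b c h1 h2
      rw [hlc] at h1 h2
      have sac : sim g χ R (e a) (e c) := by rcases h1 with ⟨-, -, h3⟩ | ⟨-, -, h3⟩ <;> exact h3
      have sbc : sim g χ R (e b) (e c) := by rcases h2 with ⟨-, -, h3⟩ | ⟨-, -, h3⟩ <;> exact h3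
      have sab : sim g χ R (e a) (e b) := sim_trans h hg sac (sim_symm h hg sbc)
      rcases h.tot (e a) (e b) with h3 | h3 | h3
      · exact Or.inl (he0 h3)
      · right
        rcases hor a with h4 | h4
        · exact Or.inl ((hlc _ _).2 (Or.inl ⟨h4, h3, sab⟩))
        · exact Or.inr ((hlc _ _).2 (Or.inr ⟨hsnc a b sab h4, h3, sim_symm h hg sab⟩))
      · right
        rcases hor a with h4 | h4
        · exact Or.inr ((hlc _ _).2 (Or.inl ⟨hspc a b sab h4, h3, sim_symm h hg sab⟩))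
        · exact Or.inl ((hlc _ _).2 (Or.inr ⟨h4, h3, sab⟩))
    · intro x
      apply he0
      rw [hT, h.one]
    · intro γ δ x
      apply he0
      rw [hT, hT, hT, h.mul]
    · intro γ x y h1
      rw [hlc] at h1 ⊢
      rw [hT, hT]
      rcases h1 with ⟨a1, a2, a3⟩ | ⟨a1, a2, a3⟩
      · obtain ⟨δ, hδ, a4⟩ := (hsp x).1 a1
        by_cases hγ : χ γ = 1
        · refine Or.inl ⟨(hsp _).2 ⟨γ * δ, chi_mul_pos hγ hδ, ?_⟩, h.mono _ _ _ hγ a2,
            h.sim_t hg a3 γ⟩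
          rw [hT, h.mul]
          exact h.sim_t hg a4 γ
        · refine Or.inr ⟨(hsn _).2 ⟨γ * δ, chi_mul_np hγ hδ, ?_⟩, h.anti _ _ _ hγ a2,
            h.sim_t hg a3 γ⟩
          rw [hT, h.mul]
          exact h.sim_t hg a4 γ
      · obtain ⟨δ, hδ, a4⟩ := (hsn x).1 a1
        by_cases hγ : χ γ = 1
        · refine Or.inr ⟨(hsn _).2 ⟨γ * δ, chi_mul_pn hγ hδ, ?_⟩, h.mono _ _ _ hγ a2,
            h.sim_t hg a3 γ⟩
          rw [hT, h.mul]
          exact h.sim_t hg a4 γ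
        · refine Or.inl ⟨(hsp _).2 ⟨γ * δ, chi_mul_neg hγ hδ, ?_⟩, h.anti _ _ _ hγ a2,
            h.sim_t hg a3 γ⟩
          rw [hT, h.mul]
          exact h.sim_t hg a4 γ
    · intro j x y
      simp only [c2, ac_mk, ac_blk_succ, h.act]
      rw [← hT]
      exact ⟨fun h1 => he0 h1, fun h1 => by rw [h1]⟩
  · refine R2_ext ?_ ?_ ?_
    · intro m n
      rw [hlt]
      simp only [d2, lt_mk, ro, sp_c2, sn_c2, hlc]
      constructor
      · rintro (⟨h1, h2 | h2⟩ | ⟨h1, h2 | h2⟩)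
        · exact h2.2
        · exact (hne m n h2.2.2 (hltne _ _ h2.2.1).symm h1 h2.1).elim
        · exact (hne n m h2.2.2 (hltne _ _ h2.2.1) h2.1
            (hsnc m n (sim_symm h hg h2.2.2) h1)).elim
        · exact ⟨h2.2.1, sim_symm h hg h2.2.2⟩
      · rintro ⟨h1, h2⟩
        rcases hor m with h3 | h3
        · exact Or.inl ⟨h3, Or.inl ⟨h3, h1, h2⟩⟩
        · exact Or.inr ⟨h3, Or.inr ⟨hsnc m n h2 h3, h1, sim_symm h hg h2⟩⟩
    · intro j m n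
      rcases j with _ | j
      · simp only [d2, ac_mk]
        exact ⟨fun h1 => absurd rfl h1.1, fun h1 => absurd h1 (ac_blk_0 _ _)⟩
      · simp only [d2, ac_mk, c2, Nat.add_sub_cancel]
        exact ⟨fun h1 => h1.2, fun h1 => ⟨Nat.succ_ne_zero _, h1⟩⟩
    · intro j m
      simp only [d2, co_mk, c2]

end blk

end

end Pool.Agent.Y558.MB
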