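import Pool.Agent.Y560.TF.All
import Pool.Agent.TH425.FF.Par
import Pool.Agent.H533R2.VS.All2

set_option autoImplicit false

/-!
# Trees with group actions, as a tame class
-/

namespace Pool.Agent.Y558.MB

open Set MeasureTheory
open Pool.Agent.H533R2.VO (RS Dich VC RIso)
open Pool.Agent.H566P (ar R2 v2 lt ac co mk)
open Pool.Agent.Y560.TG (lt_mk ac_mk co_mk R2_ext riso_iff meas_into cont_into ex lt_ex ac_ex
  co_ex_even co_ex_odd)
open Pool.Agent.H533R2.VS (US UIso UDich VCu Coan Inv)
open Pool.Agent.Y560.TF (TR TA)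

/-- the structure and the predicates of a structure with interleaved predicates -/
noncomputable def spl (z : R2) : US ar :=
  (mk (lt z) (ac z) (fun n m => co z (2 * n) m),
    fun n m => z (2 * (2 * n + 1) + 2) (v2 (2 * (2 * n + 1) + 2) m m))

theorem clopen_lt (x y : ℕ) : IsClopen {z : R2 | lt z x y} :=
  (isClopen_discrete ({true} : Set Bool)).preimage
    ((continuous_apply (v2 0 x y)).comp (continuous_apply (A := fun i => (Fin (ar i) → ℕ) → Bool) 0))

theorem clopen_ac (n x y : ℕ) : IsClopen {z : R2 | ac z n x y} :=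
  (isClopen_discrete ({true} : Set Bool)).preimage
    ((continuous_apply (v2 (2 * n + 1) x y)).comp
      (continuous_apply (A := fun i => (Fin (ar i) → ℕ) → Bool) (2 * n + 1)))

theorem clopen_co (n x : ℕ) : IsClopen {z : R2 | co z n x} :=
  (isClopen_discrete ({true} : Set Bool)).preimage
    ((continuous_apply (v2 (2 * n + 2) x x)).comp
      (continuous_apply (A := fun i => (Fin (ar i) → ℕ) → Bool) (2 * n + 2)))

theorem cont_spl : Continuous spl := by
  refine Continuous.prodMk (cont_into ?_ ?_ ?_) ?_
  · intro x y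
    simp only [lt_mk]
    exact clopen_lt x y
  · intro n x y
    simp only [ac_mk]
    exact clopen_ac n x y
  · intro n x
    simp only [co_mk]
    exact clopen_co _ x
  · refine continuous_pi fun n => continuous_pi fun m => ?_
    exact (continuous_apply _).comp
      (continuous_apply (A := fun i => (Fin (ar i) → ℕ) → Bool) (2 * (2 * n + 1) + 2))

/-- the interleaved structure -/
noncomputable def joi (x : US ar) : R2 := ex (fun n m => x.2 n m = true) x.1

theorem lt_spl (z : R2) (m n : ℕ) : lt (spl z).1 m n ↔ lt z m n := by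
  simp only [spl, lt_mk]
theorem ac_spl (z : R2) (k m n : ℕ) : ac (spl z).1 k m n ↔ ac z k m n := by
  simp only [spl, ac_mk]
theorem co_spl (z : R2) (k m : ℕ) : co (spl z).1 k m ↔ co z (2 * k) m := by
  simp only [spl, co_mk]
theorem un_spl (z : R2) (k m : ℕ) : (spl z).2 k m = true ↔ co z (2 * k + 1) m := Iff.rfl

theorem spl_joi (x : US ar) : spl (joi x) = x := by
  refine Prod.ext (R2_ext ?_ ?_ ?_) ?_
  · intro m n
    rw [lt_spl]
    exact lt_ex _ _ _ _
  · intro k m n
    rw [ac_spl]
    exact ac_ex _ _ _ _ _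
  · intro k m
    rw [co_spl]
    exact co_ex_even _ _ _ _
  · funext n m
    rw [Bool.eq_iff_iff, un_spl]
    exact co_ex_odd _ _ _ _

theorem joi_spl (z : R2) : joi (spl z) = z := by
  refine R2_ext ?_ ?_ ?_
  · intro m n
    unfold joi
    rw [lt_ex, lt_spl]
  · intro k m n
    unfold joi
    rw [ac_ex, ac_spl]
  · intro k m
    rcases Nat.even_or_odd' k with ⟨j, rfl | rfl⟩
    · unfold joi
      rw [co_ex_even, co_spl]
    · unfold joi
      rw [co_ex_odd, un_spl]

theorem UIso_iff (x y : US ar) : UIso x y ↔ ∃ σ : Equiv.Perm ℕ,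
    ((∀ m n, lt y.1 (σ m) (σ n) ↔ lt x.1 m n) ∧
    (∀ k m n, ac y.1 k (σ m) (σ n) ↔ ac x.1 k m n) ∧ (∀ k m, co y.1 k (σ m) ↔ co x.1 k m)) ∧
    ∀ i u, y.2 i (σ u) = x.2 i u := by
  refine exists_congr fun σ => and_congr ?_ Iff.rfl
  have hv : ∀ (i m n : ℕ), (⇑σ ∘ v2 i m n : Fin (ar i) → ℕ) = v2 i (σ m) (σ n) := by
    intro i m n
    funext j
    simp only [Function.comp, v2]
    split_ifs <;> rfl
  constructor
  · intro h
    refine ⟨fun m n => ?_, fun k m n => ?_, fun k m => ?_⟩
    · unfold lt
      rw [← hv, h]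
    · unfold ac
      rw [← hv, h]
    · unfold co
      rw [← hv, h]
  · rintro ⟨h1, h2, h3⟩
    -- pull back along `σ` and compare
    have e : (fun (i : ℕ) (v : Fin (ar i) → ℕ) => y.1 i (⇑σ ∘ v)) = x.1 := by
      refine R2_ext ?_ ?_ ?_
      · intro m n
        rw [← h1]
        show y.1 0 (⇑σ ∘ v2 0 m n) = true ↔ _
        rw [hv]
        rfl
      · intro k m n
        rw [← h2]
        show y.1 (2 * k + 1) (⇑σ ∘ v2 (2 * k + 1) m n) = true ↔ _
        rw [hv]
        rfl
      · intro k m
        rw [← h3]
        show y.1 (2 * k + 2) (⇑σ ∘ v2 (2 * k + 2) m m) = true ↔ _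
        rw [hv]
        rfl
    intro i v
    exact congrFun (congrFun e i) v

theorem spl_iso (z z' : R2) : UIso (spl z) (spl z') ↔ RIso z z' := by
  rw [UIso_iff, riso_iff]
  refine exists_congr fun σ => ?_
  constructor
  · rintro ⟨⟨h1, h2, h3⟩, h4⟩
    refine ⟨fun m n => ?_, fun k m n => ?_, fun k m => ?_⟩
    · have := h1 m n
      simp only [spl, lt_mk] at this
      exact this
    · have := h2 k m n
      simp only [spl, ac_mk] at this
      exact this
    · rcases Nat.even_or_odd' k with ⟨j, rfl | rfl⟩
      · have := h3 j m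
        simp only [spl, co_mk] at this
        exact this
      · have := h4 j m
        rw [Bool.eq_iff_iff] at this
        exact this
  · rintro ⟨h1, h2, h3⟩
    refine ⟨⟨fun m n => ?_, fun k m n => ?_, fun k m => ?_⟩, fun k m => ?_⟩
    · simp only [spl, lt_mk]
      exact h1 m n
    · simp only [spl, ac_mk]
      exact h2 k m n
    · simp only [spl, co_mk]
      exact h3 _ m
    · rw [Bool.eq_iff_iff]
      exact h3 (2 * k + 1) m

/-- A class of structures of this kind that is given by the order and the action: the dichotomy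
with further unary predicates. -/
theorem vcu_of_vc {V : R2 → Prop} (hV : ∀ z : R2, V (spl z).1 → V z) (h : VC V) : VCu V := by
  intro B hB hi hBV
  have hB' : MeasurableSet (spl ⁻¹' B) := cont_spl.measurable hB
  rcases h (spl ⁻¹' B) hB' (fun x y hxy => hi _ _ ((spl_iso x y).2 hxy))
    (fun z hz => hV z (hBV _ hz)) with ⟨f, hf⟩ | ⟨c, hc, hcB, hcI⟩
  · left
    refine ⟨fun n => spl (f n), fun x hx => ?_⟩
    obtain ⟨n, hn⟩ := hf (joi x) (by show spl (joi x) ∈ B; rw [spl_joi]; exact hx)
    refine ⟨n, ?_⟩
    have := (spl_iso _ _).2 hn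
    rwa [spl_joi] at this
  · right
    exact ⟨fun α => spl (c α), cont_spl.comp hc, hcB, fun α β h => hcI α β ((spl_iso _ _).1 h)⟩

section
variable {Γ : Type} [Group Γ] {g : ℕ → Γ}

theorem vcu_TR (hg : Function.Surjective g) : VCu (TR g) := by
  refine vcu_of_vc ?_ (Pool.Agent.Y560.TF.fin Γ g hg)
  rintro z ⟨t, h⟩
  refine ⟨t, ?_, ?_, ?_, h.one, h.mul, ?_, ?_⟩
  · intro x
    have := h.irr x
    simp only [spl, lt_mk] at this
    exact this
  · intro x y w
    have := h.tr x y w
    simp only [spl, lt_mk] at this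
    exact this
  · intro a b c
    have := h.sem a b c
    simp only [spl, lt_mk] at this
    exact this
  · intro γ x y
    have := h.mono γ x y
    simp only [spl, lt_mk] at this
    exact this
  · intro n x y
    have := h.act n x y
    simp only [spl, ac_mk] at this
    exact this

theorem inv_TR : Inv (TR g) := by
  rintro R R' hR ⟨t, h⟩
  obtain ⟨σ, h1, h2, h3⟩ := riso_iff.1 hR
  have e1 : ∀ x y, lt R' x y ↔ lt R (σ.symm x) (σ.symm y) := by
    intro x y
    rw [← h1, Equiv.apply_symm_apply, Equiv.apply_symm_apply]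
  have e2 : ∀ n x y, ac R' n x y ↔ ac R n (σ.symm x) (σ.symm y) := by
    intro n x y
    rw [← h2, Equiv.apply_symm_apply, Equiv.apply_symm_apply]
  refine ⟨fun γ x => σ (t γ (σ.symm x)), ?_, ?_, ?_, ?_, ?_, ?_, ?_⟩
  · intro x
    rw [e1]
    exact h.irr _
  · intro x y w
    rw [e1, e1, e1]
    exact h.tr _ _ _
  · intro a b c
    rw [e1, e1, e1, e1]
    intro h4 h5
    rcases h.sem _ _ _ h4 h5 with h6 | h6 | h6
    · exact Or.inl (σ.symm.injective h6)
    · exact Or.inr (Or.inl h6)
    · exact Or.inr (Or.inr h6)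
  · intro x
    show σ (t 1 (σ.symm x)) = x
    rw [h.one, Equiv.apply_symm_apply]
  · intro γ δ x
    show σ (t (γ * δ) (σ.symm x)) = σ (t γ (σ.symm (σ (t δ (σ.symm x)))))
    rw [h.mul, Equiv.symm_apply_apply]
  · intro γ x y
    rw [e1, e1, Equiv.symm_apply_apply, Equiv.symm_apply_apply]
    exact h.mono _ _ _
  · intro n x y
    rw [e2, h.act]
    constructor
    · intro h4
      rw [h4, Equiv.apply_symm_apply]
    · intro h4
      rw [← h4, Equiv.symm_apply_apply]

/-- a Borel description of the class -/
theorem TR_iff (hg : Function.Surjective g) (R : R2) : TR g R ↔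
    (∀ x, ¬ lt R x x) ∧ (∀ x y z, lt R x y → lt R y z → lt R x z) ∧
    (∀ a b c, lt R a c → lt R b c → a = b ∨ lt R a b ∨ lt R b a) ∧
    (∀ n x, ∃ y, ac R n x y) ∧
    (∀ n m x y z, g n = g m → ac R n x y → ac R m x z → y = z) ∧
    (∀ n x y, g n = 1 → ac R n x y → y = x) ∧
    (∀ n m k x y z, g k = g n * g m → ac R m x y → ac R n y z → ac R k x z) ∧
    (∀ n x y x' y', ac R n x x' → ac R n y y' → lt R x y → lt R x' y') := by
  constructor
  · rintro ⟨t, h⟩
    refine ⟨h.irr, h.tr, h.sem, fun n x => ⟨t (g n) x, (h.act _ _ _).2 rfl⟩, ?_, ?_, ?_, ?_⟩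
    · intro n m x y z hnm h1 h2
      rw [h.act] at h1 h2
      rw [← h1, ← h2, hnm]
    · intro n x y hn h1
      rw [h.act, hn, h.one] at h1
      exact h1.symm
    · intro n m k x y z hk h1 h2
      rw [h.act] at h1 h2 ⊢
      rw [hk, h.mul, h1, h2]
    · intro n x y x' y' h1 h2 h3
      rw [h.act] at h1 h2
      rw [← h1, ← h2]
      exact h.mono _ _ _ h3
  · rintro ⟨h1, h2, h3, h4, h5, h6, h7, h8⟩
    choose i hi using hg
    choose T hT using h4
    refine ⟨fun γ x => T (i γ) x, h1, h2, h3, ?_, ?_, ?_, ?_⟩
    · intro x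
      exact h6 _ x _ (hi 1) (hT _ _)
    · intro γ δ x
      have := h7 (i γ) (i δ) (i (γ * δ)) x _ _ (by rw [hi, hi, hi]) (hT _ _) (hT _ _)
      exact h5 _ _ x _ _ rfl (hT _ _) this
    · intro γ x y h
      exact h8 _ x y _ _ (hT _ _) (hT _ _) h
    · intro n x y
      constructor
      · intro h
        exact h5 _ _ x _ _ (hi (g n)) (hT _ _) h
      · intro h
        have h9 := hT n x
        have : T n x = y := by
          rw [← h]
          exact h5 _ _ x _ _ (hi (g n)).symm h9 (hT _ _)
        rwa [this] at h9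

theorem mset_lt (x y : ℕ) : Measurable (fun R : R2 => lt R x y) :=
  measurableSet_setOfPred.1 (Pool.Agent.Y560.TG.meas_lt x y)
theorem mset_ac (n x y : ℕ) : Measurable (fun R : R2 => ac R n x y) :=
  measurableSet_setOfPred.1 (Pool.Agent.Y560.TG.meas_ac n x y)
theorem mset_co (n x : ℕ) : Measurable (fun R : R2 => co R n x) :=
  measurableSet_setOfPred.1 (Pool.Agent.Y560.TG.meas_co n x)

theorem meas_TR (hg : Function.Surjective g) : MeasurableSet {R : R2 | TR g R} := by
  refine measurableSet_setOfPred.2 ?_
  have e : (TR g : R2 → Prop) = _ := funext fun R => propext (TR_iff hg R)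
  rw [e]
  refine Measurable.and (Measurable.forall fun x => (mset_lt x x).not) (Measurable.and ?_
    (Measurable.and ?_ (Measurable.and ?_ (Measurable.and ?_ (Measurable.and ?_
      (Measurable.and ?_ ?_))))))
  · exact Measurable.forall fun x => Measurable.forall fun y => Measurable.forall fun z =>
      (mset_lt x y).imp ((mset_lt y z).imp (mset_lt x z))
  · exact Measurable.forall fun a => Measurable.forall fun b => Measurable.forall fun c =>
      (mset_lt a c).imp ((mset_lt b c).imp (measurable_const.or ((mset_lt a b).or (mset_lt b a))))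
  · exact Measurable.forall fun n => Measurable.forall fun x => Measurable.exists fun y =>
      mset_ac n x y
  · exact Measurable.forall fun n => Measurable.forall fun m => Measurable.forall fun x =>
      Measurable.forall fun y => Measurable.forall fun z => measurable_const.imp
        ((mset_ac n x y).imp ((mset_ac m x z).imp measurable_const))
  · exact Measurable.forall fun n => Measurable.forall fun x =>
      Measurable.forall fun y => measurable_const.imp ((mset_ac n x y).imp measurable_const)
  · exact Measurable.forall fun n => Measurable.forall fun m => Measurable.forall fun k =>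
      Measurable.forall fun x => Measurable.forall fun y => Measurable.forall fun z =>
        measurable_const.imp ((mset_ac m x y).imp ((mset_ac n y z).imp (mset_ac k x z)))
  · exact Measurable.forall fun n => Measurable.forall fun x =>
      Measurable.forall fun y => Measurable.forall fun x' => Measurable.forall fun y' =>
        (mset_ac n x x').imp ((mset_ac n y y').imp ((mset_lt x y).imp (mset_lt x' y')))

theorem coan_TR (hg : Function.Surjective g) : Coan (TR g) := by
  have hP : PolishSpace (RS ar) := Pool.Agent.H533R2.VS.kis_pRS ar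
  exact MeasurableSet.analyticSet (meas_TR hg).compl

end

end Pool.Agent.Y558.MB
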