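import Pool.Agent.Y558.MB.Vcw

set_option autoImplicit false

/-!
# The final form for group actions by automorphisms and anti-automorphisms
-/

namespace Pool.Agent.Y558.MB

open Set MeasureTheory
open Pool.Agent.H533R2.VO (RS Dich VC RIso)
open Pool.Agent.H566P (ar R2 v2 a0 a1 lt ac co mk S_ACC XG Isom
  OUT_code OUT_inj OUT_meas OUT_inv OUT_rsymm OUT_iso OUT_lt OUT_ac OUT_co OUT_clopen)
open Pool.Agent.Y560.TG (acc)

/-- `x.1` is a strict linear order on which `Γ` acts by automorphisms and anti-automorphisms, with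
unary predicates -/
structure TW {Γ : Type} [Group Γ] (χ : Γ →* ℤˣ) (x : XG Γ) : Prop where
  irr : ∀ m, x.1 m m = false
  tr : ∀ m n k, x.1 m n = true → x.1 n k = true → x.1 m k = true
  tot : ∀ m n, m = n ∨ x.1 m n = true ∨ x.1 n m = true
  one : ∀ m, x.2.1 1 m = m
  mul : ∀ γ δ m, x.2.1 (γ * δ) m = x.2.1 γ (x.2.1 δ m)
  mono : ∀ γ m n, χ γ = 1 → x.1 m n = true → x.1 (x.2.1 γ m) (x.2.1 γ n) = true
  anti : ∀ γ m n, χ γ ≠ 1 → x.1 m n = true → x.1 (x.2.1 γ n) (x.2.1 γ m) = true

theorem OUT_WR {Γ : Type} {g : ℕ → Γ} [Group Γ] {χ : Γ →* ℤˣ} (x : XG Γ) (h : TW χ x) :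
    WR g χ (OUT_code g x) := by
  refine ⟨x.2.1, ⟨?_, ?_, ?_, h.one, h.mul, ?_, ?_, ?_⟩⟩
  · intro m
    rw [OUT_lt acc, h.irr]
    simp
  · intro m n k
    simp only [OUT_lt acc]
    exact h.tr m n k
  · intro m n
    simp only [OUT_lt acc]
    exact h.tot m n
  · intro γ m n
    simp only [OUT_lt acc]
    exact h.mono γ m n
  · intro γ m n
    simp only [OUT_lt acc]
    exact h.anti γ m n
  · intro k m n
    rw [OUT_ac acc]

/-- The final form. -/
theorem outB (Γ : Type) [Group Γ] [Countable Γ] (χ : Γ →* ℤˣ) (B : Set (XG Γ))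
    (hB : MeasurableSet B) (hLO : ∀ x ∈ B, TW χ x)
    (hinv : ∀ x ∈ B, ∀ (y : XG Γ) (σ : Equiv.Perm ℕ), Isom σ x y → y ∈ B) :
    (∃ f : ℕ → XG Γ, ∀ x ∈ B, ∃ n, ∃ σ : Equiv.Perm ℕ, Isom σ (f n) x) ∨
    (∃ c : (ℕ → Bool) → XG Γ, Continuous c ∧ (∀ A, c A ∈ B) ∧
      ∀ A A', (∃ σ : Equiv.Perm ℕ, Isom σ (c A) (c A')) → A = A') := by
  classical
  have hA := acc
  obtain ⟨g, hg⟩ := exists_surjective_nat Γ
  have hinj := OUT_inj hA hg
  set B1 : Set R2 := OUT_code g '' B with hB1
  have hB1m : MeasurableSet B1 :=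
    hB.image_of_measurable_injOn (OUT_meas hA) (hinj.injOn)
  have hone : ∀ R R' : R2, RIso R R' → R ∈ B1 → R' ∈ B1 := by
    rintro R R' h ⟨x, hx, rfl⟩
    obtain ⟨σ, y, hy, hyR⟩ := OUT_inv hA hg x R' h
    exact ⟨y, hinv x hx y σ hy, hyR⟩
  have hV := Pool.Agent.H533R2.VS.vs_plain ar (WR g χ) (vcu_WR hg) B1 hB1m
    (fun R R' h => ⟨hone R R' h, hone R' R (OUT_rsymm h)⟩)
    (by
      rintro R ⟨x, hx, rfl⟩
      exact OUT_WR x (hLO x hx))
  rcases hV with ⟨f, hf⟩ | ⟨c, hc, hcB, hcI⟩
  · left
    have hch : ∀ n, ∃ x : XG Γ, f n ∈ B1 → OUT_code g x = f n := by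
      intro n
      by_cases h : f n ∈ B1
      · obtain ⟨x, -, hx⟩ := h
        exact ⟨x, fun _ => hx⟩
      · exact ⟨(fun _ _ => false, fun _ _ => 0, fun _ _ => false), fun h' => absurd h' h⟩
    choose f' hf' using hch
    refine ⟨f', fun x hx => ?_⟩
    obtain ⟨n, hn⟩ := hf (OUT_code g x) ⟨x, hx, rfl⟩
    have hfn : f n ∈ B1 := hone _ _ (OUT_rsymm hn) ⟨x, hx, rfl⟩
    refine ⟨n, (OUT_iso hA hg _ _).1 ?_⟩
    rw [hf' n hfn]
    exact hn
  · right
    choose X hXB hXc using hcB
    refine ⟨X, ?_, hXB, ?_⟩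
    · have h1 : Continuous (fun A => (X A).1) := by
        refine continuous_pi fun m => continuous_pi fun n => ?_
        refine continuous_discrete_rng.2 fun b => ?_
        have hcl : IsClopen {A | (X A).1 m n = true} := by
          have e : {A | (X A).1 m n = true} = {A | c A 0 (v2 0 m n) = true} := by
            ext A
            show (X A).1 m n = true ↔ lt (c A) m n
            rw [← hXc A, OUT_lt hA]
          rw [e]
          exact OUT_clopen hc _ _
        cases b with
        | true => exact hcl.isOpen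
        | false =>
          have e : (fun A => (X A).1 m n) ⁻¹' {false} = {A | (X A).1 m n = true}ᶜ := by
            ext A
            simp
          rw [e]
          exact hcl.compl.isOpen
      have h2 : Continuous (fun A => (X A).2.1) := by
        refine continuous_pi fun γ => continuous_pi fun m => ?_
        refine continuous_discrete_rng.2 fun n => ?_
        obtain ⟨k, rfl⟩ := hg γ
        have e : (fun A => (X A).2.1 (g k) m) ⁻¹' {n} =
            {A | c A (2 * k + 1) (v2 (2 * k + 1) m n) = true} := by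
          ext A
          show (X A).2.1 (g k) m = n ↔ ac (c A) k m n
          rw [← hXc A, OUT_ac hA]
        rw [e]
        exact (OUT_clopen hc _ _).isOpen
      have h3 : Continuous (fun A => (X A).2.2) := by
        refine continuous_pi fun i => continuous_pi fun m => ?_
        refine continuous_discrete_rng.2 fun b => ?_
        have hcl : IsClopen {A | (X A).2.2 i m = true} := by
          have e : {A | (X A).2.2 i m = true} =
              {A | c A (2 * i + 2) (v2 (2 * i + 2) m m) = true} := by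
            ext A
            show (X A).2.2 i m = true ↔ co (c A) i m
            rw [← hXc A, OUT_co hA]
          rw [e]
          exact OUT_clopen hc _ _
        cases b with
        | true => exact hcl.isOpen
        | false =>
          have e : (fun A => (X A).2.2 i m) ⁻¹' {false} = {A | (X A).2.2 i m = true}ᶜ := by
            ext A
            simp
          rw [e]
          exact hcl.compl.isOpen
      exact h1.prodMk (h2.prodMk h3)
    · intro A A' h
      apply hcI
      rw [← hXc A, ← hXc A']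
      exact (OUT_iso hA hg _ _).2 h

end Pool.Agent.Y558.MB
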