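import Pool.Agent.Y558.MB.Ext

set_option autoImplicit false

/-!
# Linear orders with a group acting by automorphisms and anti-automorphisms
-/

namespace Pool.Agent.Y558.MB

open Set MeasureTheory
open Pool.Agent.H533R2.VO (RS Dich VC RIso)
open Pool.Agent.H566P (ar R2 v2 lt ac co mk)
open Pool.Agent.Y560.TG (lt_mk ac_mk co_mk R2_ext riso_iff meas_into cont_into)
open Pool.Agent.H533R2.VS (US UIso UDich VCu Coan Inv IsSum DecG act p2)
open Pool.Agent.Y560.TF (TR TA)
open Pool.Agent.TH425.FF (PCanon PExp)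

section
variable {Γ : Type} [Group Γ] (g : ℕ → Γ) (χ : Γ →* ℤˣ)

/-- `R` is a strict linear order with an action `t` of `Γ` by automorphisms and
anti-automorphisms, with orientation character `χ` -/
structure WA (R : R2) (t : Γ → ℕ → ℕ) : Prop where
  irr : ∀ x, ¬ lt R x x
  tr : ∀ x y z, lt R x y → lt R y z → lt R x z
  tot : ∀ x y, x = y ∨ lt R x y ∨ lt R y x
  one : ∀ x, t 1 x = x
  mul : ∀ γ δ x, t (γ * δ) x = t γ (t δ x)
  mono : ∀ γ x y, χ γ = 1 → lt R x y → lt R (t γ x) (t γ y)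
  anti : ∀ γ x y, χ γ ≠ 1 → lt R x y → lt R (t γ y) (t γ x)
  act : ∀ n x y, ac R n x y ↔ t (g n) x = y

def WR (R : R2) : Prop := ∃ t, WA g χ R t

/-- the same position with respect to all fixed cuts of anti-automorphisms -/
def sim (R : R2) (m n : ℕ) : Prop := ∀ j m' n', χ (g j) ≠ 1 → ac R j m m' → ac R j n n' →
  ((lt R m m' ↔ lt R n n') ∧ (lt R m' m ↔ lt R n' n))

/-- the same component -/
def cls (R : R2) (m n : ℕ) : Prop := ∃ j m', ac R j m m' ∧ sim g χ R m' n

/-- the first coding -/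
noncomputable def c1 (R : R2) : R2 :=
  mk (fun m n => lt R m n ∧ sim g χ R m n)
    (fun n x y => if n = 0 then cls g χ R x y else ac R (n - 1) x y)
    (fun i x => if i % 3 = 0 then co R (i / 3) x else if i % 3 = 1 then
      (∃ x', ac R (i / 3) x x' ∧ lt R x x') else (∃ x', ac R (i / 3) x x' ∧ lt R x' x))

/-- the first decoding -/
noncomputable def d1 (z : R2) : R2 :=
  mk (fun m n => lt z m n ∨ ∃ j, χ (g j) ≠ 1 ∧ ((co z (3 * j + 1) m ∧ ¬ co z (3 * j + 1) n) ∨
      (¬ co z (3 * j + 2) m ∧ co z (3 * j + 2) n)))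
    (fun n x y => ac z (n + 1) x y) (fun i x => co z (3 * i) x)

/-- the same position, in terms of the predicates -/
def sim' (z : R2) (m n : ℕ) : Prop := ∀ j, χ (g j) ≠ 1 →
  ((co z (3 * j + 1) m ↔ co z (3 * j + 1) n) ∧ (co z (3 * j + 2) m ↔ co z (3 * j + 2) n))

/-- positive sign with respect to the parameters (`s` is the shift of the action) -/
def sp (s : ℕ) (z : R2) (p : List ℕ) (m : ℕ) : Prop :=
  ∃ x0, x0 ∈ p ∧ ∃ j k, χ (g j) = 1 ∧ ac z (j + s) x0 k ∧ sim' g χ z k m

/-- negative sign -/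
def sn (s : ℕ) (z : R2) (p : List ℕ) (m : ℕ) : Prop :=
  ∃ x0, x0 ∈ p ∧ ∃ j k, χ (g j) ≠ 1 ∧ ac z (j + s) x0 k ∧ sim' g χ z k m

/-- the reoriented order -/
def ro (s : ℕ) (z : R2) (p : List ℕ) (m n : ℕ) : Prop :=
  (sp g χ s z p m ∧ lt z m n) ∨ (sn g χ s z p m ∧ lt z n m)

noncomputable def c2 (p : List ℕ) (z : R2) : R2 :=
  mk (ro g χ 1 z p) (fun n x y => ac z (n + 1) x y) (co z)

noncomputable def d2 (p : List ℕ) (R : R2) : R2 :=
  mk (ro g χ 0 R p) (fun n x y => n ≠ 0 ∧ ac R (n - 1) x y) (co R)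

end

/-! ### Equivariance -/

/-- `σ` is an isomorphism -/
def IsI (σ : Equiv.Perm ℕ) (R R' : R2) : Prop :=
  (∀ x y, lt R' (σ x) (σ y) ↔ lt R x y) ∧ (∀ n x y, ac R' n (σ x) (σ y) ↔ ac R n x y) ∧
    ∀ n x, co R' n (σ x) ↔ co R n x

theorem comp_v2 (σ : Equiv.Perm ℕ) (i m n : ℕ) :
    (⇑σ ∘ v2 i m n : Fin (ar i) → ℕ) = v2 i (σ m) (σ n) := by
  funext j
  simp only [Function.comp, v2]
  split_ifs <;> rfl

theorem isI_act (σ : Equiv.Perm ℕ) (R : R2) : IsI σ R (act σ R) := by
  refine ⟨fun x y => ?_, fun n x y => ?_, fun n x => ?_⟩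
  · show R 0 (⇑σ.symm ∘ v2 0 (σ x) (σ y)) = true ↔ _
    rw [comp_v2, Equiv.symm_apply_apply, Equiv.symm_apply_apply]
    rfl
  · show R (2 * n + 1) (⇑σ.symm ∘ v2 (2 * n + 1) (σ x) (σ y)) = true ↔ _
    rw [comp_v2, Equiv.symm_apply_apply, Equiv.symm_apply_apply]
    rfl
  · show R (2 * n + 2) (⇑σ.symm ∘ v2 (2 * n + 2) (σ x) (σ x)) = true ↔ _
    rw [comp_v2, Equiv.symm_apply_apply]
    rfl

theorem isI_unique {σ : Equiv.Perm ℕ} {R R' R'' : R2} (h : IsI σ R R') (h' : IsI σ R R'') :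
    R' = R'' := by
  refine R2_ext ?_ ?_ ?_
  · rw [σ.surjective.forall₂]
    intro x y
    rw [h.1, h'.1]
  · intro n
    rw [σ.surjective.forall₂]
    intro x y
    rw [h.2.1, h'.2.1]
  · intro n
    rw [σ.surjective.forall]
    intro x
    rw [h.2.2, h'.2.2]

theorem isI_iff {σ : Equiv.Perm ℕ} {R R' : R2} : IsI σ R R' ↔ R' = act σ R :=
  ⟨fun h => isI_unique h (isI_act σ R), fun h => h ▸ isI_act σ R⟩

section
variable {Γ : Type} [Group Γ] {g : ℕ → Γ} {χ : Γ →* ℤˣ}

theorem isI_sim {σ : Equiv.Perm ℕ} {R R' : R2} (h : IsI σ R R') (m n : ℕ) :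
    sim g χ R' (σ m) (σ n) ↔ sim g χ R m n := by
  unfold sim
  refine forall_congr' fun j => ?_
  rw [σ.surjective.forall₂]
  simp only [h.1, h.2.1]

theorem isI_cls {σ : Equiv.Perm ℕ} {R R' : R2} (h : IsI σ R R') (m n : ℕ) :
    cls g χ R' (σ m) (σ n) ↔ cls g χ R m n := by
  unfold cls
  refine exists_congr fun j => ?_
  rw [σ.surjective.exists]
  simp only [isI_sim h, h.2.1]

theorem isI_c1 {σ : Equiv.Perm ℕ} {R R' : R2} (h : IsI σ R R') :
    IsI σ (c1 g χ R) (c1 g χ R') := by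
  refine ⟨fun x y => ?_, fun n x y => ?_, fun n x => ?_⟩
  · simp only [c1, lt_mk, h.1, isI_sim h]
  · simp only [c1, ac_mk, h.2.1, isI_cls h]
  · have e1 : ∀ i x, (∃ x', ac R' i (σ x) x' ∧ lt R' (σ x) x') ↔
        ∃ x', ac R i x x' ∧ lt R x x' := by
      intro i x
      rw [σ.surjective.exists]
      simp only [h.1, h.2.1]
    have e2 : ∀ i x, (∃ x', ac R' i (σ x) x' ∧ lt R' x' (σ x)) ↔
        ∃ x', ac R i x x' ∧ lt R x' x := by
      intro i x
      rw [σ.surjective.exists]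
      simp only [h.1, h.2.1]
    simp only [c1, co_mk, h.2.2, e1, e2]

theorem isI_d1 {σ : Equiv.Perm ℕ} {R R' : R2} (h : IsI σ R R') :
    IsI σ (d1 g χ R) (d1 g χ R') := by
  refine ⟨fun x y => ?_, fun n x y => ?_, fun n x => ?_⟩
  · simp only [d1, lt_mk, h.1, h.2.2]
  · simp only [d1, ac_mk, h.2.1]
  · simp only [d1, co_mk, h.2.2]

theorem isI_sim' {σ : Equiv.Perm ℕ} {R R' : R2} (h : IsI σ R R') (m n : ℕ) :
    sim' g χ R' (σ m) (σ n) ↔ sim' g χ R m n := by
  unfold sim'
  simp only [h.2.2]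

theorem isI_sp {σ : Equiv.Perm ℕ} {R R' : R2} (h : IsI σ R R') (s : ℕ) (p : List ℕ) (m : ℕ) :
    sp g χ s R' (p.map σ) (σ m) ↔ sp g χ s R p m := by
  unfold sp
  rw [σ.surjective.exists]
  refine exists_congr fun x0 => and_congr ?_ (exists_congr fun j => ?_)
  · rw [List.mem_map]
    exact ⟨by rintro ⟨a, ha, hb⟩; exact σ.injective hb ▸ ha, fun ha => ⟨x0, ha, rfl⟩⟩
  · rw [σ.surjective.exists]
    simp only [h.2.1, isI_sim' h]

theorem isI_sn {σ : Equiv.Perm ℕ} {R R' : R2} (h : IsI σ R R') (s : ℕ) (p : List ℕ) (m : ℕ) :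
    sn g χ s R' (p.map σ) (σ m) ↔ sn g χ s R p m := by
  unfold sn
  rw [σ.surjective.exists]
  refine exists_congr fun x0 => and_congr ?_ (exists_congr fun j => ?_)
  · rw [List.mem_map]
    exact ⟨by rintro ⟨a, ha, hb⟩; exact σ.injective hb ▸ ha, fun ha => ⟨x0, ha, rfl⟩⟩
  · rw [σ.surjective.exists]
    simp only [h.2.1, isI_sim' h]

theorem isI_ro {σ : Equiv.Perm ℕ} {R R' : R2} (h : IsI σ R R') (s : ℕ) (p : List ℕ) (m n : ℕ) :
    ro g χ s R' (p.map σ) (σ m) (σ n) ↔ ro g χ s R p m n := by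
  unfold ro
  simp only [h.1, isI_sp h, isI_sn h]

theorem isI_c2 {σ : Equiv.Perm ℕ} {R R' : R2} (h : IsI σ R R') (p : List ℕ) :
    IsI σ (c2 g χ p R) (c2 g χ (p.map σ) R') := by
  refine ⟨fun x y => ?_, fun n x y => ?_, fun n x => ?_⟩
  · simp only [c2, lt_mk, isI_ro h]
  · simp only [c2, ac_mk, h.2.1]
  · simp only [c2, co_mk, h.2.2]

theorem isI_d2 {σ : Equiv.Perm ℕ} {R R' : R2} (h : IsI σ R R') (p : List ℕ) :
    IsI σ (d2 g χ p R) (d2 g χ (p.map σ) R') := by
  refine ⟨fun x y => ?_, fun n x y => ?_, fun n x => ?_⟩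
  · simp only [d2, lt_mk, isI_ro h]
  · simp only [d2, ac_mk, h.2.1]
  · simp only [d2, co_mk, h.2.2]

/-! ### Measurability -/

theorem m_sim (m n : ℕ) : Measurable (fun R : R2 => sim g χ R m n) := by
  unfold sim
  exact Measurable.forall fun j => Measurable.forall fun m' => Measurable.forall fun n' =>
    measurable_const.imp ((mset_ac j m m').imp ((mset_ac j n n').imp
      (((mset_lt m m').iff (mset_lt n n')).and ((mset_lt m' m).iff (mset_lt n' n)))))

theorem m_cls (m n : ℕ) : Measurable (fun R : R2 => cls g χ R m n) := by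
  unfold cls
  exact Measurable.exists fun j => Measurable.exists fun m' => (mset_ac j m m').and (m_sim m' n)

theorem m_sim' (m n : ℕ) : Measurable (fun R : R2 => sim' g χ R m n) := by
  unfold sim'
  exact Measurable.forall fun j => measurable_const.imp
    (((mset_co _ m).iff (mset_co _ n)).and ((mset_co _ m).iff (mset_co _ n)))

theorem m_sp (s : ℕ) (p : List ℕ) (m : ℕ) : Measurable (fun R : R2 => sp g χ s R p m) := by
  unfold sp
  exact Measurable.exists fun x0 => measurable_const.and (Measurable.exists fun j =>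
    Measurable.exists fun k => measurable_const.and ((mset_ac _ x0 k).and (m_sim' k m)))

theorem m_sn (s : ℕ) (p : List ℕ) (m : ℕ) : Measurable (fun R : R2 => sn g χ s R p m) := by
  unfold sn
  exact Measurable.exists fun x0 => measurable_const.and (Measurable.exists fun j =>
    Measurable.exists fun k => measurable_const.and ((mset_ac _ x0 k).and (m_sim' k m)))

theorem m_ro (s : ℕ) (p : List ℕ) (m n : ℕ) : Measurable (fun R : R2 => ro g χ s R p m n) :=
  ((m_sp s p m).and (mset_lt m n)).or ((m_sn s p m).and (mset_lt n m))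

theorem m_c1 : Measurable (c1 g χ) := by
  refine meas_into ?_ ?_ ?_
  · intro x y
    simp only [c1, lt_mk]
    exact measurableSet_setOfPred.2 ((mset_lt x y).and (m_sim x y))
  · intro n x y
    simp only [c1, ac_mk]
    by_cases h : n = 0
    · simp only [h, if_true]
      exact measurableSet_setOfPred.2 (m_cls x y)
    · simp only [h, if_false]
      exact measurableSet_setOfPred.2 (mset_ac _ x y)
  · intro n x
    simp only [c1, co_mk]
    refine measurableSet_setOfPred.2 ?_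
    split_ifs
    · exact mset_co _ x
    · exact Measurable.exists fun x' => (mset_ac _ x x').and (mset_lt x x')
    · exact Measurable.exists fun x' => (mset_ac _ x x').and (mset_lt x' x)

theorem m_d1 : Measurable (d1 g χ) := by
  refine meas_into ?_ ?_ ?_
  · intro x y
    simp only [d1, lt_mk]
    refine measurableSet_setOfPred.2 ((mset_lt x y).or (Measurable.exists fun j =>
      measurable_const.and (((mset_co _ x).and (mset_co _ y).not).or
        ((mset_co _ x).not.and (mset_co _ y)))))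
  · intro n x y
    simp only [d1, ac_mk]
    exact measurableSet_setOfPred.2 (mset_ac _ x y)
  · intro n x
    simp only [d1, co_mk]
    exact measurableSet_setOfPred.2 (mset_co _ x)

theorem m_c2 (p : List ℕ) : Measurable (c2 g χ p) := by
  refine meas_into ?_ ?_ ?_
  · intro x y
    simp only [c2, lt_mk]
    exact measurableSet_setOfPred.2 (m_ro _ p x y)
  · intro n x y
    simp only [c2, ac_mk]
    exact measurableSet_setOfPred.2 (mset_ac _ x y)
  · intro n x
    simp only [c2, co_mk]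
    exact measurableSet_setOfPred.2 (mset_co _ x)

theorem m_d2 (p : List ℕ) : Measurable (d2 g χ p) := by
  refine meas_into ?_ ?_ ?_
  · intro x y
    simp only [d2, lt_mk]
    exact measurableSet_setOfPred.2 (m_ro _ p x y)
  · intro n x y
    simp only [d2, ac_mk]
    exact measurableSet_setOfPred.2 (measurable_const.and (mset_ac _ x y))
  · intro n x
    simp only [d2, co_mk]
    exact measurableSet_setOfPred.2 (mset_co _ x)

theorem pc1 : PCanon (fun _ : List ℕ => c1 g χ) (fun _ : List ℕ => d1 g χ) where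
  meas _ := m_c1
  dmeas _ := m_d1
  cact σ _ x := isI_iff.1 (isI_c1 (isI_act σ x))
  dact σ _ x := isI_iff.1 (isI_d1 (isI_act σ x))

theorem pc2 : PCanon (c2 g χ) (d2 g χ) where
  meas p := m_c2 p
  dmeas p := m_d2 p
  cact σ p x := isI_iff.1 (isI_c2 (isI_act σ x) p)
  dact σ p x := isI_iff.1 (isI_d2 (isI_act σ x) p)

end

end Pool.Agent.Y558.MB
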