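import Pool.Agent.Y558.MB.Blk

set_option autoImplicit false

/-!
# Vaught's conjecture for linear orders with automorphisms and anti-automorphisms
-/

namespace Pool.Agent.Y558.MB

open Set MeasureTheory
open Pool.Agent.H533R2.VO (RS Dich VC RIso)
open Pool.Agent.H566P (ar R2 v2 lt ac co mk)
open Pool.Agent.Y560.TG (lt_mk ac_mk co_mk R2_ext riso_iff meas_into cont_into)
open Pool.Agent.H533R2.VS (US UIso UDich VCu Coan Inv IsSum DecG act p2)
open Pool.Agent.Y560.TF (TR TA)
open Pool.Agent.TH425.FF (PCanon PExp)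

section
variable {Γ : Type} [Group Γ] {g : ℕ → Γ} {χ : Γ →* ℤˣ} {R : R2} {t : Γ → ℕ → ℕ}

theorem cls_equiv (h : WA g χ R t) (hg : Function.Surjective g) :
    (∀ u, cls g χ R u u) ∧ (∀ u v, cls g χ R u v → cls g χ R v u) ∧
      ∀ u v w, cls g χ R u v → cls g χ R v w → cls g χ R u w := by
  refine ⟨fun u => ?_, fun u v => ?_, fun u v w => ?_⟩
  · rw [cls_iff h hg]
    refine ⟨1, ?_⟩
    rw [h.one]
    exact sim_refl u h hg
  · rw [cls_iff h hg, cls_iff h hg]
    rintro ⟨γ, h1⟩
    refine ⟨γ⁻¹, ?_⟩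
    have h2 := h.sim_t hg h1 γ⁻¹
    rw [h.inv_t] at h2
    exact sim_symm h hg h2
  · rw [cls_iff h hg, cls_iff h hg, cls_iff h hg]
    rintro ⟨γ, h1⟩ ⟨δ, h2⟩
    refine ⟨δ * γ, ?_⟩
    rw [h.mul]
    exact sim_trans h hg (h.sim_t hg h1 δ) h2

theorem decG_false : (DecG : R2 → Prop) (fun _ _ => false) := by
  refine ⟨fun _ _ _ => rfl, ?_⟩
  intro F hF
  have h2 : 2 < F.card := by rcases hF with h | h <;> omega
  obtain ⟨X, hX1, hX2⟩ := Finset.exists_subset_card_eq (s := F) (n := 2) (by omega)
  refine ⟨X, hX1, by omega, by omega, ?_⟩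
  intro u _ v _ w _ _ i
  simp

theorem isSum_c1 (h : WA g χ R t) (hg : Function.Surjective g) :
    IsSum 1 (fun _ => false) DecG (PExp (c2 g χ) (d2 g χ) (TR g)) (c1 g χ R) := by
  obtain ⟨e1, e2, e3⟩ := cls_equiv h hg
  have hc : ∀ u v, c1 g χ R 1 (p2 u v) = true ↔ cls g χ R u v := fun u v => ac_c1_0 u v
  refine ⟨fun u => (hc u u).2 (e1 u), fun u v h1 => (hc v u).2 (e2 _ _ ((hc u v).1 h1)),
    fun u v w h1 h2 => (hc u w).2 (e3 _ _ _ ((hc u v).1 h1) ((hc v w).1 h2)), ?_, ?_, ?_, ?_⟩
  · intro i hi _ v hv j l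
    rw [hc]
    -- the entries of a tuple in a relation are in one component
    rcases Nat.eq_zero_or_pos i with rfl | hi0
    · have hj : ∀ j : Fin (ar 0), j.1 = 0 ∨ j.1 = 1 := by
        intro j
        have := j.2
        have e : ar 0 = 2 := rfl
        omega
      have hv' : v = v2 0 (v ⟨0, by decide⟩) (v ⟨1, by decide⟩) := by
        funext j
        simp only [v2]
        rcases hj j with h1 | h1
        · rw [if_pos h1]
          congr 1
          exact Fin.ext h1
        · rw [if_neg (by omega)]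
          congr 1
          exact Fin.ext h1
      rw [hv'] at hv
      have h1 : lt (c1 g χ R) (v ⟨0, by decide⟩) (v ⟨1, by decide⟩) := hv
      rw [lt_c1] at h1
      have h2 : cls g χ R (v ⟨0, by decide⟩) (v ⟨1, by decide⟩) := by
        rw [cls_iff h hg]
        refine ⟨1, ?_⟩
        rw [h.one]
        exact h1.2
      rcases hj j with a | a <;> rcases hj l with b | b
      · rw [show j = ⟨0, by decide⟩ from Fin.ext a, show l = ⟨0, by decide⟩ from Fin.ext b]
        exact e1 _
      · rw [show j = ⟨0, by decide⟩ from Fin.ext a, show l = ⟨1, by decide⟩ from Fin.ext b]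
        exact h2
      · rw [show j = ⟨1, by decide⟩ from Fin.ext a, show l = ⟨0, by decide⟩ from Fin.ext b]
        exact e2 _ _ h2
      · rw [show j = ⟨1, by decide⟩ from Fin.ext a, show l = ⟨1, by decide⟩ from Fin.ext b]
        exact e1 _
    · rcases Nat.even_or_odd' i with ⟨k, rfl | rfl⟩
      · obtain ⟨k, rfl⟩ : ∃ k', k = k' + 1 := ⟨k - 1, by omega⟩
        have ha : ar (2 * (k + 1)) = 1 := by
          unfold ar
          rw [if_neg]
          omega
        have h1 : j = l := by
          apply Fin.ext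
          have := j.2
          have := l.2
          omega
        rw [h1]
        exact e1 _
      · obtain ⟨k, rfl⟩ : ∃ k', k = k' + 1 := ⟨k - 1, by omega⟩
        have ha : ar (2 * (k + 1) + 1) = 2 := by
          unfold ar
          rw [if_pos]
          omega
        have hj : ∀ j : Fin (ar (2 * (k + 1) + 1)), j.1 = 0 ∨ j.1 = 1 := by
          intro j
          have := j.2
          omega
        have hv' : v = v2 (2 * (k + 1) + 1) (v ⟨0, by omega⟩) (v ⟨1, by omega⟩) := by
          funext j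
          simp only [v2]
          rcases hj j with h1 | h1
          · rw [if_pos h1]
            congr 1
            exact Fin.ext h1
          · rw [if_neg (by omega)]
            congr 1
            exact Fin.ext h1
        rw [hv'] at hv
        have h1 : ac (c1 g χ R) (k + 1) (v ⟨0, by omega⟩) (v ⟨1, by omega⟩) := hv
        rw [ac_c1_succ, h.act] at h1
        have h2 : cls g χ R (v ⟨0, by omega⟩) (v ⟨1, by omega⟩) := by
          rw [cls_iff h hg]
          refine ⟨g k, ?_⟩
          rw [h1]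
          exact sim_refl _ h hg
        rcases hj j with a | a <;> rcases hj l with b | b
        · rw [show j = ⟨0, by omega⟩ from Fin.ext a, show l = ⟨0, by omega⟩ from Fin.ext b]
          exact e1 _
        · rw [show j = ⟨0, by omega⟩ from Fin.ext a, show l = ⟨1, by omega⟩ from Fin.ext b]
          exact h2
        · rw [show j = ⟨1, by omega⟩ from Fin.ext a, show l = ⟨0, by omega⟩ from Fin.ext b]
          exact e2 _ _ h2
        · rw [show j = ⟨1, by omega⟩ from Fin.ext a, show l = ⟨1, by omega⟩ from Fin.ext b]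
          exact e1 _
  · intro i _ hk
    exact absurd hk (by simp)
  · intro u e he0 he
    have he' : ∀ z, cls g χ R u z ↔ ∃ n, e n = z := fun z => (hc u z).symm.trans (he z)
    refine block h hg he0 ?_ ?_
    · intro γ x
      refine (he' _).1 ?_
      have h1 : cls g χ R u (e x) := (he' _).2 ⟨x, rfl⟩
      refine e3 _ _ _ h1 ?_
      rw [cls_iff h hg]
      exact ⟨γ, sim_refl _ h hg⟩
    · intro m
      rw [← cls_iff h hg]
      exact e3 _ _ _ (e2 _ _ ((he' _).2 ⟨0, rfl⟩)) ((he' _).2 ⟨m, rfl⟩)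
  · intro e _ _
    have e4 : (fun (i : ℕ) (v : Fin (ar i) → ℕ) => if i ≠ 1 ∧ (fun _ : ℕ => false) i = true then
        c1 g χ R i (e ∘ v) else false) = fun _ _ => false := by
      funext i v
      rw [if_neg]
      simp
    rw [e4]
    exact decG_false

/-- Vaught's conjecture for linear orders with automorphisms and anti-automorphisms. -/
theorem vcu_WR (hg : Function.Surjective g) : VCu (WR g χ) := by
  have k2 := Pool.Agent.TH425.FF.pexp_vcu (pc2 (g := g) (χ := χ)) (vcu_TR hg) (coan_TR hg) inv_TR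
  have k3 := Pool.Agent.TH425.FF.pexp_coan (pc2 (g := g) (χ := χ)) (coan_TR hg)
  have s1 : VCu (IsSum 1 (fun _ => false) DecG (PExp (c2 g χ) (d2 g χ) (TR g)) : R2 → Prop) := by
    refine Pool.Agent.H533R2.VS.vs_clo ar ?_ 1 rfl _ _ _ (Pool.Agent.H533R2.VS.vs_dec ar) k2
    intro i
    unfold ar
    split_ifs <;> norm_num
  have s2 := Pool.Agent.H533R2.VS.vs_kis ar 1 (fun _ => false) DecG
    (PExp (c2 g χ) (d2 g χ) (TR g)) (Pool.Agent.H533R2.VS.vs_kde ar).1 k3
  have s3 := Pool.Agent.H533R2.VS.vs_nis ar 1 (fun _ => false) DecG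
    (PExp (c2 g χ) (d2 g χ) (TR g))
  have s4 := Pool.Agent.TH425.FF.pexp_vcu (pc1 (g := g) (χ := χ)) s1 s2 s3
  intro B hB hi hV
  refine s4 B hB hi fun x hx => ?_
  obtain ⟨t, h⟩ := hV x hx
  exact ⟨[], isSum_c1 h hg, d1_c1 h hg⟩

end

end Pool.Agent.Y558.MB
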